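import Pool.Agent.Work.MP_74ecad_co.Lower

open Pool.Agent.Work.MP_74ecad_co

/-- If every permutation of every number of elements is performed by a tangle in which every path has
at most `b` moves, then `b` is at least `4`. -/
theorem Pool.Agent.Results.MP_74ecad_co.MovesPerPath.result (b : ℕ)
    (hb : ∀ n : ℕ, 1 ≤ n → ∀ π : Equiv.Perm (Fin n),
      ∃ τ : Tangle n, τ.Performs π ∧ ∀ i, τ.moves i ≤ b) : 4 ≤ b := by
  by_contra hcon
  have h3 : b ≤ 3 := by omega
  obtain ⟨n, hn, π, h⟩ := lower_bound 3 (by norm_num)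
  obtain ⟨τ, h1, h2⟩ := hb n hn π
  have h4 := h τ h1
  have h5 : τ.totalMoves ≤ 3 * n := by
    unfold Tangle.totalMoves
    calc ∑ i, τ.moves i ≤ ∑ _i : Fin n, 3 := Finset.sum_le_sum (fun i _ => (h2 i).trans h3)
      _ = 3 * n := by simp [Nat.mul_comm]
  have h6 : (τ.totalMoves : ℝ) ≤ 3 * n := by exact_mod_cast h5
  linarith
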