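import Pool.Agent.Work.MP_74ecad_co.Lower
import Pool.Agent.Work.MP_74ecad_co.Schedule

open Pool.Agent.Work.MP_74ecad_co

/-- The smallest constant `a` such that every permutation of every `n` elements is performed by a
tangle with at most `a n` moves in total is `4`. -/
theorem Pool.Agent.Results.MP_74ecad_co.TotalMovesConstant.result :
    IsLeast {a : ℝ | ∀ n : ℕ, 1 ≤ n → ∀ π : Equiv.Perm (Fin n),
      ∃ τ : Tangle n, τ.Performs π ∧ (τ.totalMoves : ℝ) ≤ a * n} 4 := by
  refine ⟨?_, ?_⟩
  · intro n _ π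
    obtain ⟨τ, h1, h2⟩ := upper_bound n π
    exact ⟨τ, h1, by exact_mod_cast h2⟩
  · intro a ha
    by_contra hcon
    push Not at hcon
    obtain ⟨n, hn, π, h⟩ := lower_bound a hcon
    obtain ⟨τ, h1, h2⟩ := ha n hn π
    exact absurd h2 (not_le.2 (h τ h1))
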